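import Pool.Agent.PFJ.Stmts

/-!
Row SH1 of squad PFB: position of the common vertices in the second box.
-/

set_option autoImplicit false

open Matrix Filter Topology

namespace Pool.Agent.PFJ.H67

open Pool.Agent.PFS

variable {n : ℕ}

theorem lamC_cl {C : Set (V n)} {Γ : Subgroup (GL (Fin n) ℝ)} (hP : PCone C) {x : V n}
    (hx : x ∈ LamC C Γ) : x ∈ closure C := by
  obtain ⟨t, ht, u, hu, rfl⟩ := hx
  exact hP.cl_smul hu.2.1 ht.le

theorem lamC_ne {C : Set (V n)} {Γ : Subgroup (GL (Fin n) ℝ)} {x : V n}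
    (hx : x ∈ LamC C Γ) : x ≠ 0 := by
  obtain ⟨t, ht, u, hu, rfl⟩ := hx
  intro h0
  rcases smul_eq_zero.1 h0 with h | h
  · exact ht.ne' h
  · have := hu.1
    rw [h, norm_zero] at this
    norm_num at this

theorem face_cl {C : Set (V n)} (hP : PCone C) {x y : V n} (hx : x ∈ closure C)
    (hy : y ∈ Face C x) : y ∈ closure C ∧ ∃ M : ℝ, M • x - y ∈ closure C := by
  obtain ⟨ε, hε, h1, h2⟩ := hy
  refine ⟨hP.cl_of_le (hP.cl_smul hx hε.le) h2, ε⁻¹, ?_⟩
  have h3 := hP.cl_smul h1 (inv_pos.mpr hε).le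
  rwa [smul_sub, smul_smul, inv_mul_cancel₀ hε.ne', one_smul] at h3

theorem pair_notMem {C : Set (V n)} {K : ℕ} (hK : 3 ≤ K) {w : Fin K → V n} (hw : PES C w)
    {j j' : Fin K} (hj : j ≠ j') : w j + w j' ∉ C := by
  classical
  obtain ⟨l, hl⟩ : ∃ l : Fin K, l ∉ ({j, j'} : Finset (Fin K)) := by
    by_contra hcon
    push Not at hcon
    have h1 : (Finset.univ : Finset (Fin K)) ⊆ {j, j'} := fun x _ => hcon x
    have h2 := Finset.card_le_card h1
    rw [Finset.card_univ, Fintype.card_fin, Finset.card_pair hj] at h2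
    omega
  have h1 := hw.bd (fun a => if a ∈ ({j, j'} : Finset (Fin K)) then 1 else 0)
    (fun a => by split_ifs <;> norm_num) ⟨l, by simp only [if_neg hl]⟩
  have h2 : ∑ a, (if a ∈ ({j, j'} : Finset (Fin K)) then (1 : ℝ) else 0) • w a = w j + w j' := by
    simp only [ite_smul, one_smul, zero_smul]
    rw [Finset.sum_ite_mem, Finset.univ_inter, Finset.sum_pair hj]
  rwa [h2] at h1

/-- the union of two faces is small -/
theorem keyA (hUnf : UnfStmt) (hFc2 : Fc2Stmt) {C : Set (V n)} {Γ : Subgroup (GL (Fin n) ℝ)}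
    (hP : PCone C) {K : ℕ} {L' : Fin K → Submodule ℝ (V n)} {w' : Fin K → V n}
    {β' : Fin K → Fin K} (hB' : Box C Γ L' w' β') (hF' : Full C (⨆ a, L' a))
    {N : Submodule ℝ (V n)} {e e' : V n} {a b : Fin K} (hab : a ≠ b) (he : e ∈ L' a)
    (he' : e' ∈ L' b) (hec : e ∈ closure C) (hec' : e' ∈ closure C) (hE : Ext C e)
    (hE' : Ext C e') (hu : e + e' ∉ C) (hU : Unt C N (e + e')) :
    Module.finrank ℝ N ≤ 2 := by
  have h1 : N ≤ Submodule.span ℝ ({e, e'} : Set (V n)) := by
    intro z hz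
    obtain ⟨t, ht, hf⟩ := (hUnf n C hP N _ hU).2.2.2.2.1 z hz
    obtain ⟨c, c', hc⟩ := hFc2 n C Γ hP K L' w' β' hB' hF' a b hab e he e' he' hec hec' hE hE' hu
      _ hf
    have h2 : z = t⁻¹ • ((c - 1) • e + (c' - 1) • e') := by
      have h3 : t • z = (c - 1) • e + (c' - 1) • e' := by
        have : t • z = (e + e' + t • z) - (e + e') := by abel
        rw [this, hc, sub_smul, sub_smul, one_smul, one_smul]; abel
      rw [← h3, smul_smul, inv_mul_cancel₀ ht.ne', one_smul]
    rw [h2]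
    refine Submodule.smul_mem _ _ (Submodule.add_mem _ (Submodule.smul_mem _ _ ?_)
      (Submodule.smul_mem _ _ ?_))
    · exact Submodule.subset_span (by simp)
    · exact Submodule.subset_span (by simp)
  calc Module.finrank ℝ N ≤ Module.finrank ℝ (Submodule.span ℝ ({e, e'} : Set (V n))) :=
        Submodule.finrank_mono h1
    _ ≤ 2 := by
        classical
        have h2 := finrank_span_finset_le_card (R := ℝ) ({e, e'} : Finset (V n))
        rw [Finset.coe_pair] at h2
        exact h2.trans Finset.card_le_two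

/-- a factor containing a unit of a subspace contains the subspace -/
theorem keyB (hUnf : UnfStmt) (hBcp : BcpStmt) {C : Set (V n)} {Γ : Subgroup (GL (Fin n) ℝ)}
    (hP : PCone C) {K : ℕ} {L' : Fin K → Submodule ℝ (V n)} {w' : Fin K → V n}
    {β' : Fin K → Fin K} (hB' : Box C Γ L' w' β') (hF' : Full C (⨆ a, L' a))
    {N : Submodule ℝ (V n)} {u : V n} {b : Fin K} (hub : u ∈ L' b) (huc : u ∈ closure C)
    (hu : u ∉ C) (hU : Unt C N u) : N ≤ L' b := by
  classical
  intro z hz
  obtain ⟨t, ht, hf⟩ := (hUnf n C hP N _ hU).2.2.2.2.1 z hz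
  obtain ⟨hyc, M, hM⟩ := face_cl hP huc hf
  have hsum : ∑ a, (fun a => if a = b then u else 0) a = u := by simp
  obtain ⟨M', y', hM', hy', h3⟩ := hBcp n C Γ hP K L' w' β' hB' hF'
    (fun a => if a = b then u else 0)
    (fun a => by
      split_ifs with h
      · rw [h]; exact hub
      · exact Submodule.zero_mem _)
    (fun a => by
      split_ifs with h
      · exact huc
      · exact hP.zero_cl)
    (by rw [hsum]; exact hu) _ hyc M (by rw [hsum]; exact hM)
  have h4 : ∀ a, a ≠ b → y' a = 0 := by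
    intro a ha
    obtain ⟨_, h5, h6⟩ := h3 a
    simp only [if_neg ha, smul_zero, zero_sub] at h6
    exact hP.salient _ h5 h6
  have h5 : u + t • z = y' b := by
    rw [← hy']
    exact Finset.sum_eq_single b (fun a _ ha => h4 a ha) (fun h => absurd (Finset.mem_univ b) h)
  have h6 : z = t⁻¹ • (y' b - u) := by
    rw [← h5, add_sub_cancel_left, smul_smul, inv_mul_cancel₀ ht.ne', one_smul]
  rw [h6]
  exact Submodule.smul_mem _ _ (Submodule.sub_mem _ (h3 b).1 hub)

theorem sh1 (hBfa : BfaStmt) (hUnf : UnfStmt) (hBcp : BcpStmt) (hExt : ExtStmt)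
    (hFc2 : Fc2Stmt) : Sh1Stmt := by
  classical
  intro n C Γ hC K hK L w β L' w' β' i hB hB' hF hF' hS hS' hw
  have hP : PCone C := hC.toPCone
  have hcl : ∀ j, w j ∈ closure C := fun j => lamC_cl hP (hB.pes.2 j)
  have hcl' : ∀ j, w' j ∈ closure C := fun j => lamC_cl hP (hB'.pes.2 j)
  have hne : ∀ j, w j ≠ 0 := fun j => lamC_ne (hB.pes.2 j)
  have hli : LinearIndependent ℝ w := Pool.Agent.PFS.H60.lin n C hP (Fin K) w hB.pes.1
  have hind : ∀ j j', j ≠ j' → Ind2 (w j) (w j') := by
    intro j j' hj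
    have hinj : Function.Injective ![j, j'] := by
      intro x y hxy
      fin_cases x <;> fin_cases y <;> simp_all
    have h1 := hli.comp ![j, j'] hinj
    have h2 : w ∘ ![j, j'] = ![w j, w j'] := by
      funext x
      fin_cases x <;> rfl
    rw [h2, LinearIndependent.pair_iff] at h1
    exact h1
  obtain ⟨_, _, bfa3, _, _, _⟩ := hBfa n C Γ hP K L w β hB
  obtain ⟨_, _, _, _, _, bfa6⟩ := hBfa n C Γ hP K L' w' β' hB'
  obtain ⟨_, hE, _, _, _⟩ := hExt n C Γ hP K hK L w β hB hcl hF hS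
  obtain ⟨_, _, e3, _, _⟩ := hExt n C Γ hP K hK L' w' β' hB' hcl' hF' hS'
  have hnot : ∀ j j', j ≠ j' → w j + w j' ∉ C := fun j j' hj => pair_notMem hK hB.pes.1 hj
  have hb : ∀ j : Fin K, ∃ a, j ≠ i → w j ∈ L' a := by
    intro j
    by_cases hj : j = i
    · exact ⟨j, fun h => absurd hj h⟩
    · obtain ⟨a, ha⟩ := e3 (w j) (hw j hj) (hcl j) (hE j) (hne j)
      exact ⟨a, fun _ => ha⟩
  choose b hb using hb
  have hunit : ∀ j j', j ≠ j' → β j = β j' → Unt C (L (β j)) (w j + w j') := by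
    intro j j' hj hβ
    have h1 := bfa3 (β j)
    have h2 : Finset.univ.filter (fun l => β l = β j) = {j, j'} := by
      ext l
      simp only [Finset.mem_filter, Finset.mem_univ, true_and, Finset.mem_insert,
        Finset.mem_singleton]
      constructor
      · intro hl
        rcases hB.three j j' l hβ (hβ.symm.trans hl.symm) with h | h | h
        · exact absurd h hj
        · exact Or.inr h.symm
        · exact Or.inl h.symm
      · rintro (rfl | rfl)
        · rfl
        · exact hβ.symm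
    rw [h2, Finset.sum_pair hj] at h1
    exact h1
  have hsame : ∀ j j', j ≠ i → j' ≠ i → j ≠ j' → β j = β j' → b j = b j' := by
    intro j j' hji hji' hj hβ
    by_contra hbb
    have h1 := keyA hUnf hFc2 hP hB' hF' hbb (hb j hji) (hb j' hji') (hcl j) (hcl j') (hE j) (hE j')
      (hnot j j' hj) (hunit j j' hj hβ)
    have h2 := hB.two j j' hj hβ
    omega
  have hunit' : ∀ j j', j ≠ i → j' ≠ i → j ≠ j' → b j = b j' →
      Unt C (L' (b j)) (w j + w j') := by
    intro j j' hji hji' hj hbb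
    exact hS' (b j) (w j) (hb j hji) (w j') (by rw [hbb]; exact hb j' hji') (hcl j) (hcl j')
      (hind j j' hj)
  refine ⟨b, hb, fun j j' hji hji' hj => ⟨fun hbb => ?_, hsame j j' hji hji' hj⟩,
    fun j j' hji hji' hj hβ => ?_⟩
  · by_contra hβ
    have h1 := keyA hUnf hFc2 hP hB hF hβ (hB.mem j) (hB.mem j') (hcl j) (hcl j') (hE j) (hE j')
      (hnot j j' hj) (hunit' j j' hji hji' hj hbb)
    obtain ⟨i', hi'⟩ := bfa6 (b j) (w j) (hb j hji) (hne j)
    by_cases hone : ∀ l, β' l = β' i' → l = i'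
    · have h2 := hB'.one i' hone
      rw [hi'] at h2
      obtain ⟨c, hc⟩ := h2 (w j) (hb j hji)
      obtain ⟨c', hc'⟩ := h2 (w j') (by rw [hbb]; exact hb j' hji')
      have h3 := hind j j' hj c' (-c) (by rw [hc, hc', smul_smul, smul_smul, neg_mul, neg_smul,
        mul_comm c' c, add_neg_cancel])
      have h4 : c = 0 := by simpa using h3.2
      exact hne j (by rw [hc, h4, zero_smul])
    · push Not at hone
      obtain ⟨l, hl, hli'⟩ := hone
      have h2 := hB'.two l i' hli' hl
      rw [hl, hi'] at h2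
      omega
  · have hbb := hsame j j' hji hji' hj hβ
    apply le_antisymm
    · refine keyB hUnf hBcp hP hB' hF' (u := w j + w j') ?_ (hP.cl_add (hcl j) (hcl j'))
        (hnot j j' hj) (hunit j j' hj hβ)
      exact Submodule.add_mem _ (hb j hji) (by rw [hbb]; exact hb j' hji')
    · refine keyB hUnf hBcp hP hB hF (u := w j + w j') ?_ (hP.cl_add (hcl j) (hcl j'))
        (hnot j j' hj) (hunit' j j' hji hji' hj hbb)
      exact Submodule.add_mem _ (hB.mem j) (by rw [hβ]; exact hB.mem j')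

end Pool.Agent.PFJ.H67
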